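import Pool.Agent.H466.HE.SB

/-!
# Gaussian averages of `F` at a complex frequency, from the backward heat flow on a vertical line
-/

set_option autoImplicit false

namespace Pool.Agent.H466.HE

open Complex MeasureTheory Set Filter Topology
open scoped ComplexConjugate
open Pool.Agent.H466.HF Pool.Agent.H466.LD Pool.Agent.H466.HP Pool.Agent.H466.HN Pool.Agent.H466.HD
open Pool.Agent.H862.VK (Yz)

namespace FBgx

lemma real_gauss (s b : ℝ) (hs : 0 < s) :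
    Integrable (fun v : ℝ => Real.exp (v * b) * Real.exp (-v ^ 2 / (4 * s))) := by
  have hb : ((-(1 / (4 * s)) : ℝ) : ℂ).re < 0 := by
    rw [ofReal_re]
    have : 0 < 1 / (4 * s) := by positivity
    linarith
  have h := (integrable_cexp_quadratic' hb (b : ℂ) 0).norm
  refine h.congr (Eventually.of_forall fun v => ?_)
  simp only
  rw [Complex.norm_exp, ← Real.exp_add]
  congr 1
  have e : ((-(1 / (4 * s)) : ℝ) : ℂ) * (v : ℂ) ^ 2 + (b : ℂ) * v + 0 =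
      ((-(1 / (4 * s)) * v ^ 2 + b * v : ℝ) : ℂ) := by
    push_cast
    ring
  rw [e, ofReal_re]
  ring

lemma gen {g : ℝ → ℂ} {A c : ℝ} (k : Kern g A c) (lam0 : ℝ) {s : ℝ} (hs : 0 < s) (x y : ℝ) (w : ℂ) :
    ∫ v : ℝ, LL g lam0 ((x : ℂ) + ((y + v : ℝ) : ℂ) * I) * cexp (-(I * w * v)) *
      (Real.exp (-v ^ 2 / (4 * s)) : ℂ) =
    (Real.sqrt (Real.pi * (4 * s)) : ℂ) *
      ∫ u : ℝ, g u * cexp ((lam0 : ℂ) * (u : ℂ) ^ 2 + ((x : ℂ) + (y : ℂ) * I) * u -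
        s * ((u : ℂ) - w) ^ 2) := by
  have h1 : ∀ v : ℝ, LL g lam0 ((x : ℂ) + ((y + v : ℝ) : ℂ) * I) * cexp (-(I * w * v)) *
      (Real.exp (-v ^ 2 / (4 * s)) : ℂ) =
      ∫ u : ℝ, (g u * cexp ((lam0 : ℂ) * (u : ℂ) ^ 2 + ((x : ℂ) + (y : ℂ) * I) * u)) *
        (cexp ((v : ℂ) * (I * (u - w))) * (Real.exp (-v ^ 2 / (4 * s)) : ℂ)) := by
    intro v
    unfold LL
    rw [← integral_mul_const, ← integral_mul_const]
    refine integral_congr_ae (Eventually.of_forall fun u => ?_)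
    simp only
    have e : (lam0 : ℂ) * (u : ℂ) ^ 2 + ((x : ℂ) + ((y + v : ℝ) : ℂ) * I) * u =
        ((lam0 : ℂ) * (u : ℂ) ^ 2 + ((x : ℂ) + (y : ℂ) * I) * u) + (v : ℂ) * I * u := by
      push_cast
      ring
    have e2 : (v : ℂ) * (I * (u - w)) = (v : ℂ) * I * u + -(I * w * v) := by ring
    have e3 := Complex.exp_add ((lam0 : ℂ) * (u : ℂ) ^ 2 + ((x : ℂ) + (y : ℂ) * I) * u)
      ((v : ℂ) * I * u)
    have e4 := Complex.exp_add ((v : ℂ) * I * u) (-(I * w * v))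
    rw [e, e2, e3, e4]
    ring
  simp_rw [h1]
  have hint : Integrable (Function.uncurry fun (v u : ℝ) =>
      (g u * cexp ((lam0 : ℂ) * (u : ℂ) ^ 2 + ((x : ℂ) + (y : ℂ) * I) * u)) *
        (cexp ((v : ℂ) * (I * (u - w))) * (Real.exp (-v ^ 2 / (4 * s)) : ℂ)))
      ((volume : Measure ℝ).prod volume) := by
    have i1 := real_gauss s w.im hs
    have i2 := (k.integrable lam0 ((x : ℂ) + (y : ℂ) * I)).norm
    refine (i1.mul_prod i2).mono' ?_ (Eventually.of_forall fun p => ?_)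
    · have := k.cont
      refine Continuous.aestronglyMeasurable ?_
      unfold Function.uncurry
      fun_prop
    · obtain ⟨v, u⟩ := p
      simp only [Function.uncurry]
      rw [norm_mul, norm_mul (cexp _) ((Real.exp _ : ℝ) : ℂ)]
      have e1 : ‖cexp ((v : ℂ) * (I * (u - w)))‖ = Real.exp (v * w.im) := by
        rw [Complex.norm_exp]
        congr 1
        simp
      rw [e1, Complex.norm_real, Real.norm_eq_abs, abs_of_pos (Real.exp_pos _), mul_comm]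
  rw [integral_integral_swap hint]
  have h2 : ∀ u : ℝ, ∫ v : ℝ, (g u * cexp ((lam0 : ℂ) * (u : ℂ) ^ 2 +
        ((x : ℂ) + (y : ℂ) * I) * u)) *
        (cexp ((v : ℂ) * (I * (u - w))) * (Real.exp (-v ^ 2 / (4 * s)) : ℂ)) =
      (Real.sqrt (Real.pi * (4 * s)) : ℂ) *
        (g u * cexp ((lam0 : ℂ) * (u : ℂ) ^ 2 + ((x : ℂ) + (y : ℂ) * I) * u -
          s * ((u : ℂ) - w) ^ 2)) := by
    intro u
    rw [integral_const_mul, gauss_inner' hs]
    have e : cexp ((lam0 : ℂ) * (u : ℂ) ^ 2 + ((x : ℂ) + (y : ℂ) * I) * u) *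
        cexp (s * (I * (u - w)) ^ 2) =
        cexp ((lam0 : ℂ) * (u : ℂ) ^ 2 + ((x : ℂ) + (y : ℂ) * I) * u - s * ((u : ℂ) - w) ^ 2) := by
      rw [← Complex.exp_add]
      congr 1
      have hI : I ^ 2 = -1 := I_sq
      rw [mul_pow, hI]
      ring
    calc g u * cexp ((lam0 : ℂ) * (u : ℂ) ^ 2 + ((x : ℂ) + (y : ℂ) * I) * u) *
          ((Real.sqrt (Real.pi * (4 * s)) : ℂ) * cexp (s * (I * (u - w)) ^ 2))
        = (Real.sqrt (Real.pi * (4 * s)) : ℂ) * (g u *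
          (cexp ((lam0 : ℂ) * (u : ℂ) ^ 2 + ((x : ℂ) + (y : ℂ) * I) * u) *
            cexp (s * (I * (u - w)) ^ 2))) := by
          ring
      _ = _ := by rw [e]
  simp_rw [h2]
  rw [integral_const_mul]

lemma core {g : ℝ → ℂ} {A c : ℝ} (k : Kern g A c) (μ : ℝ) (hμ : 0 < μ) (x y : ℝ) (ω : ℂ) :
    ‖∫ v : ℝ, LL g 0 (((y + v : ℝ) : ℂ) * I) * cexp (-(I * ω * v)) *
        (Real.exp (-v ^ 2 / (8 * μ)) : ℂ)‖ ≤
      2 * Real.exp (2 * μ * (ω.re - x / (2 * μ)) ^ 2 - x ^ 2 / (4 * μ)) *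
        ∫ v : ℝ, ‖LL g (-μ) ((x : ℂ) + ((y + v : ℝ) : ℂ) * I)‖ *
          Real.exp (2 * ω.im * v) * Real.exp (-v ^ 2 / (4 * μ)) := by
  have hμc : (μ : ℂ) ≠ 0 := ofReal_ne_zero.2 hμ.ne'
  have h1 := gen k 0 (s := 2 * μ) (by positivity) 0 y ω
  have h2 := gen k (-μ) (s := μ) hμ x y (2 * (ω - x / (4 * μ)))
  have e8 : ∀ v : ℝ, -v ^ 2 / (4 * (2 * μ)) = -v ^ 2 / (8 * μ) := by
    intro v
    congr 1
    ring
  simp only [e8, ofReal_zero, zero_add] at h1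
  -- the two kernels
  have e1 : ∫ u : ℝ, g u * cexp ((0 : ℂ) * (u : ℂ) ^ 2 + (y : ℂ) * I * u -
        ((2 * μ : ℝ) : ℂ) * ((u : ℂ) - ω) ^ 2) =
      cexp (4 * μ * (ω - x / (4 * μ)) ^ 2 - 2 * μ * ω ^ 2) *
        ∫ u : ℝ, g u * cexp (((-μ : ℝ) : ℂ) * (u : ℂ) ^ 2 +
          ((x : ℂ) + (y : ℂ) * I) * u - μ * ((u : ℂ) - 2 * (ω - x / (4 * μ))) ^ 2) := by
    rw [← integral_const_mul]
    refine integral_congr_ae (Eventually.of_forall fun u => ?_)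
    simp only
    rw [mul_left_comm, ← Complex.exp_add]
    congr 2
    push_cast
    field_simp
    ring
  have e2 : Real.sqrt (Real.pi * (4 * (2 * μ))) = Real.sqrt 2 * Real.sqrt (Real.pi * (4 * μ)) := by
    rw [← Real.sqrt_mul (by norm_num)]
    congr 1
    ring
  have e3 : ∫ v : ℝ, LL g 0 (((y + v : ℝ) : ℂ) * I) * cexp (-(I * ω * v)) *
        (Real.exp (-v ^ 2 / (8 * μ)) : ℂ) =
      ((Real.sqrt 2 : ℝ) : ℂ) * cexp (4 * μ * (ω - x / (4 * μ)) ^ 2 - 2 * μ * ω ^ 2) *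
        ∫ v : ℝ, LL g (-μ) ((x : ℂ) + ((y + v : ℝ) : ℂ) * I) *
          cexp (-(I * (2 * (ω - x / (4 * μ))) * v)) *
          (Real.exp (-v ^ 2 / (4 * μ)) : ℂ) := by
    rw [h1, h2, e1, e2]
    push_cast
    ring
  have hn : ‖cexp (4 * μ * (ω - x / (4 * μ)) ^ 2 - 2 * μ * ω ^ 2)‖ ≤
      Real.exp (2 * μ * (ω.re - x / (2 * μ)) ^ 2 - x ^ 2 / (4 * μ)) := by
    rw [Complex.norm_exp]
    apply Real.exp_le_exp.mpr
    have e : 4 * (μ : ℂ) * (ω - x / (4 * μ)) ^ 2 - 2 * μ * ω ^ 2 =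
        ((2 * μ : ℝ) : ℂ) * (ω - ((x / (2 * μ) : ℝ) : ℂ)) ^ 2 - ((x ^ 2 / (4 * μ) : ℝ) : ℂ) := by
      push_cast
      field_simp
      ring
    rw [e, sub_re, re_ofReal_mul, ofReal_re, sq, mul_re, sub_re, sub_im, ofReal_re, ofReal_im,
      sub_zero]
    have h3 : 0 ≤ 2 * μ * (ω.im * ω.im) := mul_nonneg (by positivity) (mul_self_nonneg _)
    nlinarith
  have hs2 : Real.sqrt 2 ≤ 2 := by
    rw [Real.sqrt_le_left (by norm_num)]
    norm_num
  have him : (ω - (x : ℂ) / (4 * μ)).im = ω.im := by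
    have h3 : (x : ℂ) / (4 * μ) = ((x / (4 * μ) : ℝ) : ℂ) := by push_cast; ring
    rw [h3, sub_im, ofReal_im, sub_zero]
  have hI : ‖∫ v : ℝ, LL g (-μ) ((x : ℂ) + ((y + v : ℝ) : ℂ) * I) *
          cexp (-(I * (2 * (ω - x / (4 * μ))) * v)) *
          (Real.exp (-v ^ 2 / (4 * μ)) : ℂ)‖ ≤
      ∫ v : ℝ, ‖LL g (-μ) ((x : ℂ) + ((y + v : ℝ) : ℂ) * I)‖ *
        Real.exp (2 * ω.im * v) * Real.exp (-v ^ 2 / (4 * μ)) := by
    refine (norm_integral_le_integral_norm _).trans (le_of_eq ?_)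
    refine integral_congr_ae (Eventually.of_forall fun v => ?_)
    simp only
    rw [norm_mul, norm_mul, Complex.norm_real, Real.norm_eq_abs, abs_of_pos (Real.exp_pos _)]
    congr 2
    rw [Complex.norm_exp]
    congr 1
    have h3 : -(I * (2 * (ω - x / (4 * μ))) * (v : ℂ)) =
        ((-(2 * v) : ℝ) : ℂ) * (I * (ω - x / (4 * μ))) := by
      push_cast
      ring
    rw [h3, re_ofReal_mul, I_mul_re, him]
    ring
  have hI0 : 0 ≤ ∫ v : ℝ, ‖LL g (-μ) ((x : ℂ) + ((y + v : ℝ) : ℂ) * I)‖ *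
        Real.exp (2 * ω.im * v) * Real.exp (-v ^ 2 / (4 * μ)) :=
    integral_nonneg fun v => by positivity
  rw [e3, norm_mul, norm_mul, Complex.norm_real, Real.norm_eq_abs,
    abs_of_nonneg (Real.sqrt_nonneg _)]
  exact mul_le_mul (mul_le_mul hs2 hn (norm_nonneg _) (by norm_num)) hI (norm_nonneg _)
    (by positivity)

end FBgx

/-- **FBg** -/
theorem fbg : S_FBg := by
  intro μ hμ x y ω
  obtain ⟨A, k⟩ := gk_kern
  exact FBgx.core k μ hμ x y ω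

end Pool.Agent.H466.HE
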